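import Mathlib

namespace Pool.Agent.Results.MP_bb681f_co.Max

open Finset Module

section defs
open Classical
variable {V : Type} [Fintype V]

/-- The eigenspace `ker (A_G - l I)`. -/
noncomputable def Eig (G : SimpleGraph V) (l : ℝ) : Submodule ℝ (V → ℝ) :=
  LinearMap.ker (Matrix.toLin' (G.adjMatrix ℝ - l • (1 : Matrix V V ℝ)))

/-- `l` is a main eigenvalue: its eigenspace is not orthogonal to the all-ones vector. -/
def IsMain (G : SimpleGraph V) (l : ℝ) : Prop := ∃ x ∈ Eig G l, ∑ v, x v ≠ 0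

/-- `X` is an `l`-star set: `|X| = k_l` and `l` is not an eigenvalue of `G - X`. -/
def IsStarSet (G : SimpleGraph V) (l : ℝ) (X : Finset V) : Prop :=
  X.card = finrank ℝ (Eig G l) ∧ Eig (G.induce (↑(Xᶜ) : Set V)) l = ⊥

/-- The `l`-main vertices of `X`. -/
noncomputable def mainVertices (G : SimpleGraph V) (l : ℝ) (X : Finset V) : Finset V :=
  X.filter fun v => IsMain (G.induce (↑(insert v Xᶜ) : Set V)) l

/-- The values `|main(X)|` over connected graphs of order `n`, main eigenvalues and star sets. -/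
def Values (n : ℕ) : Set ℕ :=
  {m | ∃ (G : SimpleGraph (Fin n)) (l : ℝ) (X : Finset (Fin n)), G.Connected ∧ IsMain G l ∧
    IsStarSet G l X ∧ m = (mainVertices G l X).card}

lemma mem_Eig (G : SimpleGraph V) (l : ℝ) (x : V → ℝ) :
    x ∈ Eig G l ↔ ∀ v, ∑ w, (if G.Adj v w then x w else 0) = l * x v := by
  simp only [Eig, LinearMap.mem_ker, Matrix.toLin'_apply, Matrix.sub_mulVec, Matrix.smul_mulVec,
    Matrix.one_mulVec, sub_eq_zero, funext_iff]
  simp [Matrix.mulVec, dotProduct, SimpleGraph.adjMatrix_apply]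

lemma mem_Eig_induce (G : SimpleGraph V) (l : ℝ) (S : Finset V) (x : V → ℝ) :
    (fun v : (↑S : Set V) => x v) ∈ Eig (G.induce (↑S : Set V)) l ↔
      ∀ v ∈ S, ∑ w ∈ S, (if G.Adj v w then x w else 0) = l * x v := by
  rw [mem_Eig]
  have : ∀ v : V, ∑ w ∈ S, (if G.Adj v w then x w else 0) =
      ∑ w : (↑S : Set V), (if G.Adj v w then x w else 0) := fun v =>
    (sum_finset_coe (fun w => if G.Adj v w then x w else 0) S).symm
  simp only [this, Subtype.forall, SimpleGraph.comap_adj, Function.Embedding.subtype_apply,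
    mem_coe]

lemma induce_bot (G : SimpleGraph V) (l : ℝ) (S : Finset V)
    (h : ∀ x : V → ℝ, (∀ v ∈ S, ∑ w ∈ S, (if G.Adj v w then x w else 0) = l * x v) →
      ∀ v ∈ S, x v = 0) : Eig (G.induce (↑S : Set V)) l = ⊥ := by
  rw [eq_bot_iff]
  intro y hy
  have e : y = fun v : (↑S : Set V) => (fun u => if hu : u ∈ S then y ⟨u, hu⟩ else 0) v := by
    funext v; simp [show (v : V) ∈ S from v.2]
  have hy' := (mem_Eig_induce G l S (fun u => if hu : u ∈ S then y ⟨u, hu⟩ else 0)).1 (e ▸ hy)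
  rw [e]
  funext v
  exact h _ hy' v v.2

lemma induce_main (G : SimpleGraph V) (l : ℝ) (S : Finset V) (x : V → ℝ)
    (h : ∀ v ∈ S, ∑ w ∈ S, (if G.Adj v w then x w else 0) = l * x v) (h2 : ∑ v ∈ S, x v ≠ 0) :
    IsMain (G.induce (↑S : Set V)) l := by
  refine ⟨_, (mem_Eig_induce G l S x).2 h, ?_⟩
  rw [← sum_finset_coe x S] at h2
  convert h2

lemma induce_bot' (G : SimpleGraph V) (l : ℝ) (X : Finset V)
    (h : ∀ S : Finset V, (∀ w, w ∈ S ↔ w ∉ X) → ∀ x : V → ℝ,
      (∀ v ∈ S, ∑ w ∈ S, (if G.Adj v w then x w else 0) = l * x v) → ∀ v ∈ S, x v = 0) :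
    Eig (G.induce (↑(Xᶜ) : Set V)) l = ⊥ :=
  induce_bot G l _ (h _ fun _ => mem_compl)

lemma main_all (G : SimpleGraph V) (l : ℝ) (X : Finset V)
    (h : ∀ v ∈ X, ∀ S : Finset V, (∀ w, w ∈ S ↔ w = v ∨ w ∉ X) → ∃ x : V → ℝ,
      (∀ v ∈ S, ∑ w ∈ S, (if G.Adj v w then x w else 0) = l * x v) ∧ ∑ v ∈ S, x v ≠ 0) :
    mainVertices G l X = X := by
  refine filter_true_of_mem fun v hv => ?_
  obtain ⟨x, a, b⟩ := h v hv (insert v Xᶜ) (by simp)
  exact induce_main _ _ _ x a b

lemma finrank_eq (G : SimpleGraph V) (l : ℝ) (X : Finset V)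
    (h : ∀ x ∈ Eig G l, (∀ v ∈ X, x v = 0) → x = 0)
    (h2 : ∀ v ∈ X, ∃ y ∈ Eig G l, ∀ w ∈ X, y w = if w = v then 1 else 0) :
    X.card = finrank ℝ (Eig G l) := by
  let φ : Eig G l →ₗ[ℝ] (X → ℝ) := (LinearMap.funLeft ℝ ℝ Subtype.val) ∘ₗ (Eig G l).subtype
  have hb : Function.Bijective φ := by
    constructor
    · rw [← LinearMap.ker_eq_bot, LinearMap.ker_eq_bot']
      intro x hx
      exact Subtype.ext (h x.1 x.2 fun v hv => congrFun hx ⟨v, hv⟩)
    · intro z
      choose y hy hy2 using h2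
      refine ⟨∑ v : X, z v • ⟨y v v.2, hy v v.2⟩, ?_⟩
      funext w
      simp [φ, LinearMap.funLeft_apply, hy2 _ _ _ w.2, Subtype.coe_inj]
  rw [(LinearEquiv.ofBijective φ hb).finrank_eq]
  simp

lemma closed {G : SimpleGraph V} (hc : G.Connected) (S : V → Prop) (u : V) (hu : S u)
    (h : ∀ x w, S x → G.Adj x w → S w) (w : V) : S w := by
  obtain ⟨p⟩ := hc.preconnected u w
  induction p with
  | nil => exact hu
  | cons hadj _ ih => exact ih (h _ _ hu hadj)

lemma regular {G : SimpleGraph V} {l d : ℝ} (h : ∀ v, ∑ w, (if G.Adj v w then (1 : ℝ) else 0) = d)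
    (hl : l ≠ d) : ¬ IsMain G l := by
  rintro ⟨x, hx, hs⟩
  rw [mem_Eig] at hx
  have h1 := sum_congr rfl fun v (_ : v ∈ univ) => hx v
  rw [sum_comm, ← mul_sum] at h1
  have h2 : ∀ w, ∑ v, (if G.Adj v w then x w else 0) = d * x w := by
    intro w
    rw [← h w, sum_mul]
    exact sum_congr rfl fun v _ => by simp [G.adj_comm v w]
  simp only [h2, ← mul_sum] at h1
  exact hl (mul_right_cancel₀ hs h1).symm

noncomputable def Mx (G : SimpleGraph V) (l : ℝ) : Matrix V V ℝ :=
  G.adjMatrix ℝ - l • (1 : Matrix V V ℝ)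

lemma rank_add (G : SimpleGraph V) (l : ℝ) :
    (Mx G l).rank + finrank ℝ (Eig G l) = Fintype.card V := by
  have := LinearMap.finrank_range_add_finrank_ker (Matrix.toLin' (Mx G l))
  rw [finrank_fintype_fun_eq_card] at this
  exact this

lemma minor {M : Matrix V V ℝ} {m : ℕ} (f : Fin m → V) (h : M.rank < m) :
    (M.submatrix f f).det = 0 := by
  by_contra hd
  have := Matrix.rank_of_isUnit _ ((Matrix.isUnit_iff_isUnit_det _).2 (isUnit_iff_ne_zero.2 hd))
  have h2 := Matrix.rank_submatrix_le M f f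
  rw [this, Fintype.card_fin] at h2
  omega

def z (b : Bool) : ℤ := if b then 1 else 0

def eE (a b c d e f : Bool) : ℤ := z a + z b + z c + z d + z e + z f

def tT (a b c d e f : Bool) : ℤ :=
  z a * z b * z d + z a * z c * z e + z b * z c * z f + z d * z e * z f

def dD (a b c d e f : Bool) : ℤ := z a * z f + z b * z e + z c * z d -
  2 * (z a * z d * z f * z c + z a * z e * z f * z b + z b * z d * z e * z c)

noncomputable def bit (G : SimpleGraph V) (u v : V) : Bool := decide (G.Adj u v)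

lemma Mx_ne (G : SimpleGraph V) (l : ℝ) {u v : V} (h : u ≠ v) : Mx G l u v = z (bit G u v) := by
  by_cases a : G.Adj u v <;> simp [Mx, h, z, bit, a]

lemma Mx_ne' (G : SimpleGraph V) (l : ℝ) {u v : V} (h : u ≠ v) : Mx G l v u = z (bit G u v) := by
  by_cases a : G.Adj u v <;> simp [Mx, h.symm, z, bit, a, G.adj_comm v u]

lemma Mx_self (G : SimpleGraph V) (l : ℝ) (u : V) : Mx G l u u = -l := by simp [Mx]

lemma z_sq (b : Bool) : ((z b : ℤ) : ℝ) ^ 2 = z b := by cases b <;> simp [z]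

lemma z_ite (G : SimpleGraph V) (u v : V) {i : Decidable (G.Adj u v)} :
    (@ite ℝ _ i 1 0) = z (bit G u v) := by
  by_cases a : G.Adj u v <;> simp [z, bit, a]

lemma det4 (A : Matrix (Fin 4) (Fin 4) ℝ) : A.det =
    A 0 0 * (A 1 1 * (A 2 2 * A 3 3 - A 2 3 * A 3 2) - A 1 2 * (A 2 1 * A 3 3 - A 2 3 * A 3 1) +
      A 1 3 * (A 2 1 * A 3 2 - A 2 2 * A 3 1)) -
    A 0 1 * (A 1 0 * (A 2 2 * A 3 3 - A 2 3 * A 3 2) - A 1 2 * (A 2 0 * A 3 3 - A 2 3 * A 3 0) +
      A 1 3 * (A 2 0 * A 3 2 - A 2 2 * A 3 0)) +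
    A 0 2 * (A 1 0 * (A 2 1 * A 3 3 - A 2 3 * A 3 1) - A 1 1 * (A 2 0 * A 3 3 - A 2 3 * A 3 0) +
      A 1 3 * (A 2 0 * A 3 1 - A 2 1 * A 3 0)) -
    A 0 3 * (A 1 0 * (A 2 1 * A 3 2 - A 2 2 * A 3 1) - A 1 1 * (A 2 0 * A 3 2 - A 2 2 * A 3 0) +
      A 1 2 * (A 2 0 * A 3 1 - A 2 1 * A 3 0)) := by
  simp [Matrix.det_succ_row_zero, Fin.sum_univ_succ, Fin.succAbove]
  ring

lemma four {G : SimpleGraph V} {l : ℝ} (h : (Mx G l).rank < 4) {p q r s : V} (pq : p ≠ q)
    (pr : p ≠ r) (ps : p ≠ s) (qr : q ≠ r) (qs : q ≠ s) (rs : r ≠ s) :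
    l ^ 4 - eE (bit G p q) (bit G p r) (bit G p s) (bit G q r) (bit G q s) (bit G r s) * l ^ 2 -
      2 * tT (bit G p q) (bit G p r) (bit G p s) (bit G q r) (bit G q s) (bit G r s) * l +
      dD (bit G p q) (bit G p r) (bit G p s) (bit G q r) (bit G q s) (bit G r s) = 0 := by
  have := minor ![p, q, r, s] h
  rw [det4] at this
  simp only [Matrix.submatrix_apply, Matrix.cons_val, Mx_self, Mx_ne G l pq,
    Mx_ne G l pr, Mx_ne G l ps, Mx_ne G l qr, Mx_ne G l qs, Mx_ne G l rs, Mx_ne' G l pq,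
    Mx_ne' G l pr, Mx_ne' G l ps, Mx_ne' G l qr, Mx_ne' G l qs, Mx_ne' G l rs] at this
  simp only [eE, tT, dD]
  push_cast
  have a := z_sq (bit G p q)
  have b := z_sq (bit G p r)
  have c := z_sq (bit G p s)
  have d := z_sq (bit G q r)
  have e := z_sq (bit G q s)
  have f := z_sq (bit G r s)
  linear_combination this + l ^ 2 * (a + b + c + d + e + f) -
    ((z (bit G r s) : ℝ) ^ 2 * a + z (bit G p q) * f) -
    ((z (bit G q s) : ℝ) ^ 2 * b + z (bit G p r) * e) -
    ((z (bit G q r) : ℝ) ^ 2 * c + z (bit G p s) * d)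

lemma three {G : SimpleGraph V} {l : ℝ} (h : (Mx G l).rank < 3) {p q r : V} (pq : p ≠ q)
    (pr : p ≠ r) (qr : q ≠ r) :
    l ^ 3 - (z (bit G p q) + z (bit G p r) + z (bit G q r)) * l -
      2 * (z (bit G p q) * z (bit G p r) * z (bit G q r)) = 0 := by
  have := minor ![p, q, r] h
  rw [Matrix.det_fin_three] at this
  simp only [Matrix.submatrix_apply, Matrix.cons_val, Mx_self, Mx_ne G l pq,
    Mx_ne G l pr, Mx_ne G l qr, Mx_ne' G l pq, Mx_ne' G l pr, Mx_ne' G l qr] at this
  have a := z_sq (bit G p q)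
  have b := z_sq (bit G p r)
  have d := z_sq (bit G q r)
  linear_combination -this + l * (a + b + d)

lemma two {G : SimpleGraph V} {l : ℝ} (h : (Mx G l).rank < 2) {p q : V} (pq : p ≠ q) :
    l ^ 2 = z (bit G p q) := by
  have := minor ![p, q] h
  rw [Matrix.det_fin_two] at this
  simp only [Matrix.submatrix_apply, Matrix.cons_val, Mx_self, Mx_ne G l pq,
    Mx_ne' G l pq] at this
  linear_combination this + z_sq (bit G p q)

lemma bit_t {G : SimpleGraph V} {u v : V} (h : G.Adj u v) : bit G u v = true := by simp [bit, h]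

lemma bit_f {G : SimpleGraph V} {u v : V} (h : ¬ G.Adj u v) : bit G u v = false := by
  simp [bit, h]

lemma case_zero {G : SimpleGraph V} (hc : G.Connected) (h : (Mx G 0).rank < 4)
    (hn : 1 < Fintype.card V) : ¬ IsMain G 0 := by
  have D : ∀ {p q r s : V}, p ≠ q → p ≠ r → p ≠ s → q ≠ r → q ≠ s → r ≠ s →
      dD (bit G p q) (bit G p r) (bit G p s) (bit G q r) (bit G q s) (bit G r s) = 0 := by
    intro p q r s a b c d e f
    simpa using four h a b c d e f
  have dom : ∀ {u v}, G.Adj u v → ∀ w, G.Adj u w ∨ G.Adj v w := by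
    intro u v huv
    refine closed hc _ u (Or.inr huv.symm) fun x w hx hxw => ?_
    by_contra hw
    push Not at hw
    have ux : u ≠ x := by rintro rfl; exact hw.1 hxw
    have vx : v ≠ x := by rintro rfl; exact hw.2 hxw
    have uw : u ≠ w := by rintro rfl; exact hw.2 huv.symm
    have vw : v ≠ w := by rintro rfl; exact hw.1 huv
    have := D huv.ne ux uw vx vw hxw.ne
    rw [bit_t huv, bit_t hxw, bit_f hw.1, bit_f hw.2] at this
    simp [dD, z] at this
  rintro ⟨x, hx, hs⟩
  rw [mem_Eig] at hx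
  obtain ⟨u, v, huv⟩ : ∃ u v, G.Adj u v := by
    obtain ⟨u, v, huv⟩ := Fintype.exists_pair_of_one_lt_card hn
    by_contra hcon
    push Not at hcon
    exact huv (closed hc (fun w => u = w) u rfl (fun x w _ h => (hcon _ _ h).elim) v)
  by_cases ht : ∃ t, G.Adj u t ∧ G.Adj v t
  · obtain ⟨t, ut, vt⟩ := ht
    have : ∑ w, ((if G.Adj u w then x w else 0) + (if G.Adj v w then x w else 0) +
        if G.Adj t w then x w else 0) = ∑ w, 2 * x w := by
      refine sum_congr rfl fun w _ => ?_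
      have a := dom huv w
      have b := dom ut w
      have c := dom vt w
      have d : ¬ (G.Adj u w ∧ G.Adj v w ∧ G.Adj t w) := by
        rintro ⟨p, q, r⟩
        have := D huv.ne ut.ne p.ne vt.ne q.ne r.ne
        rw [bit_t huv, bit_t ut, bit_t p, bit_t vt, bit_t q, bit_t r] at this
        simp [dD, z] at this
      split_ifs <;> first | ring1 | (exfalso; tauto)
    rw [sum_add_distrib, sum_add_distrib, hx, hx, hx, ← mul_sum] at this
    exact hs (by linarith)
  · have : ∑ w, ((if G.Adj u w then x w else 0) + (if G.Adj v w then x w else 0)) = ∑ w, x w := by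
      refine sum_congr rfl fun w _ => ?_
      have a := dom huv w
      have d : ¬ (G.Adj u w ∧ G.Adj v w) := fun h => ht ⟨w, h⟩
      split_ifs <;> first | ring1 | (exfalso; tauto)
    rw [sum_add_distrib, hx, hx] at this
    exact hs (by linarith)

lemma case_neg {G : SimpleGraph V} (hc : G.Connected) (h : (Mx G (-1)).rank < 4) :
    ¬ IsMain G (-1) := by
  obtain ⟨u0⟩ := hc.nonempty
  obtain ⟨u, -, hu⟩ := exists_max_image univ (fun v => G.degree v) ⟨u0, mem_univ _⟩
  have all : ∀ w, u = w ∨ G.Adj u w := by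
    refine closed hc _ u (Or.inl rfl) fun x w hx hxw => ?_
    by_contra hw
    push Not at hw
    have ux : G.Adj u x := hx.resolve_left (by rintro rfl; exact hw.2 hxw)
    obtain ⟨y, uy, xy, hy⟩ : ∃ y, G.Adj u y ∧ x ≠ y ∧ ¬ G.Adj x y := by
      by_contra hcon
      push Not at hcon
      have h1 : insert u (insert w ((G.neighborFinset u).erase x)) ⊆ G.neighborFinset x := by
        intro y hy
        simp only [mem_insert, mem_erase, SimpleGraph.mem_neighborFinset] at hy ⊢
        rcases hy with rfl | rfl | hy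
        exacts [ux.symm, hxw, hcon y hy.2 (Ne.symm hy.1)]
      have h2 := card_le_card h1
      rw [card_insert_of_notMem (by simp [hw.1]), card_insert_of_notMem (by simp [hw.2]),
        card_erase_of_mem (by simpa using ux)] at h2
      have h3 := hu x (mem_univ _)
      have h4 : 0 < G.degree u := card_pos.2 ⟨x, by simpa using ux⟩
      simp only [SimpleGraph.card_neighborFinset_eq_degree] at h2
      omega
    have := four h ux.ne uy.ne hw.1 xy hxw.ne (show y ≠ w by rintro rfl; exact hw.2 uy)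
    rw [bit_t ux, bit_t uy, bit_f hw.2, bit_f hy, bit_t hxw] at this
    generalize bit G y w = b at this
    cases b <;> norm_num [eE, tT, dD, z] at this
  rintro ⟨x, hx, hs⟩
  rw [mem_Eig] at hx
  have : ∑ w, ((if G.Adj u w then x w else 0) + if u = w then x w else 0) = ∑ w, x w := by
    refine sum_congr rfl fun w _ => ?_
    rcases all w with rfl | a
    · simp
    · simp [a, a.ne]
  rw [sum_add_distrib, hx, sum_ite_eq, if_pos (mem_univ _)] at this
  exact hs (by linarith)

end defs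

def r : ℕ → ℝ → ℝ
  | 1, l => l - 1
  | 2, l => l ^ 2 - 2
  | 3, l => l ^ 2 - 4
  | 4, l => l ^ 4 - 3 * l ^ 2 + 1
  | 5, l => l ^ 2 - 3
  | 6, l => l ^ 3 - l ^ 2 - 3 * l + 1
  | 7, l => l ^ 2 - l - 4
  | 8, l => l - 3
  | _, _ => 1

def clsOf (e t d : ℤ) : ℕ :=
  if e = 0 then 0 else if e = 1 then 1 else if e = 2 then (if d = 1 then 1 else 2) else
  if e = 3 then (if t = 1 then 3 else if d = 1 then 4 else 5) else
  if e = 4 then (if t = 0 then 3 else 6) else if e = 5 then 7 else 8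

def cls (a b c d e f : Bool) : ℕ := clsOf (eE a b c d e f) (tT a b c d e f) (dD a b c d e f)

lemma etd : ∀ a b c d e f : Bool, (eE a b c d e f, tT a b c d e f, dD a b c d e f) ∈
    [((0 : ℤ), (0 : ℤ), (0 : ℤ)), (1, 0, 0), (2, 0, 1), (2, 0, 0), (3, 1, 0), (3, 0, 1), (3, 0, 0),
      (4, 0, 0), (4, 1, 1), (5, 2, 0), (6, 4, -3)] := by decide

lemma r_cls {l : ℝ} (h0 : l ≠ 0) (h1 : l + 1 ≠ 0) (a b c d e f : Bool)
    (h : l ^ 4 - eE a b c d e f * l ^ 2 - 2 * tT a b c d e f * l + dD a b c d e f = 0) :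
    r (cls a b c d e f) l = 0 := by
  have H := etd a b c d e f
  unfold cls
  generalize eE a b c d e f = x at *
  generalize tT a b c d e f = y at *
  generalize dD a b c d e f = w at *
  have k : ∀ (i j : ℕ) (s : ℝ), l ^ i * (l + 1) ^ j * s = 0 → s = 0 := fun i j s hs =>
    (mul_eq_zero.1 hs).resolve_left (mul_ne_zero (pow_ne_zero _ h0) (pow_ne_zero _ h1))
  simp only [List.mem_cons, Prod.mk.injEq, List.not_mem_nil, or_false] at H
  rcases H with ⟨rfl, rfl, rfl⟩ | ⟨rfl, rfl, rfl⟩ | ⟨rfl, rfl, rfl⟩ | ⟨rfl, rfl, rfl⟩ |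
    ⟨rfl, rfl, rfl⟩ | ⟨rfl, rfl, rfl⟩ | ⟨rfl, rfl, rfl⟩ | ⟨rfl, rfl, rfl⟩ | ⟨rfl, rfl, rfl⟩ |
    ⟨rfl, rfl, rfl⟩ | ⟨rfl, rfl, rfl⟩ <;> push_cast at h
  · exact k 4 0 1 (by linear_combination h)
  · exact k 2 1 (l - 1) (by linear_combination h)
  · exact pow_eq_zero_iff two_ne_zero |>.1 (k 0 2 ((l - 1) ^ 2) (by linear_combination h))
  · exact k 2 0 (l ^ 2 - 2) (by linear_combination h)
  · exact k 1 2 (l ^ 2 - 4) (by linear_combination (l + 2) * h)
  · exact k 0 0 (l ^ 4 - 3 * l ^ 2 + 1) (by linear_combination h)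
  · exact k 2 0 (l ^ 2 - 3) (by linear_combination h)
  · exact k 2 0 (l ^ 2 - 4) (by linear_combination h)
  · exact k 0 1 (l ^ 3 - l ^ 2 - 3 * l + 1) (by linear_combination h)
  · exact k 1 1 (l ^ 2 - l - 4) (by linear_combination h)
  · exact k 0 3 (l - 3) (by linear_combination h)

lemma r_rng {c : ℕ} {l : ℝ} (h : r c l = 0) : 1 ≤ c ∧ c ≤ 8 := by
  by_contra hc
  have : r c l = 1 := by
    unfold r; split <;> first | rfl | omega
  rw [this] at h; exact one_ne_zero h

lemma r_uniq {c c' : ℕ} {l : ℝ} (h : r c l = 0) (h' : r c' l = 0) : c = c' := by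
  obtain ⟨a, b⟩ := r_rng h
  obtain ⟨a', b'⟩ := r_rng h'
  interval_cases c <;> interval_cases c' <;> simp only [r] at h h'
  · rfl
  · exact (one_ne_zero (α := ℝ) (by
      linear_combination ((1) * l ^ 0 + (1) * l ^ 1) * h +
        ((-1) * l ^ 0) * h')).elim
  · exact (one_ne_zero (α := ℝ) (by
      linear_combination ((1/3) * l ^ 0 + (1/3) * l ^ 1) * h +
        ((-1/3) * l ^ 0) * h')).elim
  · exact (one_ne_zero (α := ℝ) (by
      linear_combination ((-2) * l ^ 0 + (-2) * l ^ 1 + (1) * l ^ 2 + (1) * l ^ 3) * h +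
        ((-1) * l ^ 0) * h')).elim
  · exact (one_ne_zero (α := ℝ) (by
      linear_combination ((1/2) * l ^ 0 + (1/2) * l ^ 1) * h +
        ((-1/2) * l ^ 0) * h')).elim
  · exact (one_ne_zero (α := ℝ) (by
      linear_combination ((-3/2) * l ^ 0 + (0) * l ^ 1 + (1/2) * l ^ 2) * h +
        ((-1/2) * l ^ 0) * h')).elim
  · exact (one_ne_zero (α := ℝ) (by
      linear_combination ((0) * l ^ 0 + (1/4) * l ^ 1) * h +
        ((-1/4) * l ^ 0) * h')).elim
  · exact (one_ne_zero (α := ℝ) (by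
      linear_combination ((1/2) * l ^ 0) * h +
        ((-1/2) * l ^ 0) * h')).elim
  · exact (one_ne_zero (α := ℝ) (by
      linear_combination ((-1) * l ^ 0) * h +
        ((1) * l ^ 0 + (1) * l ^ 1) * h')).elim
  · rfl
  · exact (one_ne_zero (α := ℝ) (by
      linear_combination ((1/2) * l ^ 0) * h +
        ((-1/2) * l ^ 0) * h')).elim
  · exact (one_ne_zero (α := ℝ) (by
      linear_combination ((-1) * l ^ 0 + (0) * l ^ 1 + (1) * l ^ 2) * h +
        ((-1) * l ^ 0) * h')).elim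
  · exact (one_ne_zero (α := ℝ) (by
      linear_combination ((1) * l ^ 0) * h +
        ((-1) * l ^ 0) * h')).elim
  · exact (one_ne_zero (α := ℝ) (by
      linear_combination ((0) * l ^ 0 + (-2) * l ^ 1 + (1) * l ^ 2) * h +
        ((1) * l ^ 0 + (-1) * l ^ 1) * h')).elim
  · exact (one_ne_zero (α := ℝ) (by
      linear_combination ((3/2) * l ^ 0 + (-1/2) * l ^ 1) * h +
        ((-1) * l ^ 0 + (1/2) * l ^ 1) * h')).elim
  · exact (one_ne_zero (α := ℝ) (by
      linear_combination ((1/7) * l ^ 0) * h +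
        ((-3/7) * l ^ 0 + (-1/7) * l ^ 1) * h')).elim
  · exact (one_ne_zero (α := ℝ) (by
      linear_combination ((-1/3) * l ^ 0) * h +
        ((1/3) * l ^ 0 + (1/3) * l ^ 1) * h')).elim
  · exact (one_ne_zero (α := ℝ) (by
      linear_combination ((-1/2) * l ^ 0) * h +
        ((1/2) * l ^ 0) * h')).elim
  · rfl
  · exact (one_ne_zero (α := ℝ) (by
      linear_combination ((-1/5) * l ^ 0 + (0) * l ^ 1 + (-1/5) * l ^ 2) * h +
        ((1/5) * l ^ 0) * h')).elim
  · exact (one_ne_zero (α := ℝ) (by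
      linear_combination ((-1) * l ^ 0) * h +
        ((1) * l ^ 0) * h')).elim
  · exact (one_ne_zero (α := ℝ) (by
      linear_combination ((-2/5) * l ^ 0 + (2/5) * l ^ 1 + (1/5) * l ^ 2) * h +
        ((-3/5) * l ^ 0 + (-1/5) * l ^ 1) * h')).elim
  · exact (one_ne_zero (α := ℝ) (by
      linear_combination ((-1/4) * l ^ 0 + (1/4) * l ^ 1) * h +
        ((0) * l ^ 0 + (-1/4) * l ^ 1) * h')).elim
  · exact (one_ne_zero (α := ℝ) (by
      linear_combination ((1/5) * l ^ 0) * h +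
        ((-3/5) * l ^ 0 + (-1/5) * l ^ 1) * h')).elim
  · exact (one_ne_zero (α := ℝ) (by
      linear_combination ((-1) * l ^ 0) * h +
        ((-2) * l ^ 0 + (-2) * l ^ 1 + (1) * l ^ 2 + (1) * l ^ 3) * h')).elim
  · exact (one_ne_zero (α := ℝ) (by
      linear_combination ((-1) * l ^ 0) * h +
        ((-1) * l ^ 0 + (0) * l ^ 1 + (1) * l ^ 2) * h')).elim
  · exact (one_ne_zero (α := ℝ) (by
      linear_combination ((1/5) * l ^ 0) * h +
        ((-1/5) * l ^ 0 + (0) * l ^ 1 + (-1/5) * l ^ 2) * h')).elim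
  · rfl
  · exact (one_ne_zero (α := ℝ) (by
      linear_combination ((1) * l ^ 0) * h +
        ((0) * l ^ 0 + (0) * l ^ 1 + (-1) * l ^ 2) * h')).elim
  · exact (one_ne_zero (α := ℝ) (by
      linear_combination ((6/5) * l ^ 0 + (4/5) * l ^ 1 + (-3/5) * l ^ 2) * h +
        ((-1/5) * l ^ 0 + (-7/5) * l ^ 1 + (-1/5) * l ^ 2 + (3/5) * l ^ 3) * h')).elim
  · exact (one_ne_zero (α := ℝ) (by
      linear_combination ((-5/3) * l ^ 0 + (2/3) * l ^ 1) * h +
        ((-2/3) * l ^ 0 + (1/3) * l ^ 1 + (1) * l ^ 2 + (-2/3) * l ^ 3) * h')).elim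
  · exact (one_ne_zero (α := ℝ) (by
      linear_combination ((1/55) * l ^ 0) * h +
        ((-18/55) * l ^ 0 + (-6/55) * l ^ 1 + (-3/55) * l ^ 2 + (-1/55) * l ^ 3) * h')).elim
  · exact (one_ne_zero (α := ℝ) (by
      linear_combination ((-1/2) * l ^ 0) * h +
        ((1/2) * l ^ 0 + (1/2) * l ^ 1) * h')).elim
  · exact (one_ne_zero (α := ℝ) (by
      linear_combination ((-1) * l ^ 0) * h +
        ((1) * l ^ 0) * h')).elim
  · exact (one_ne_zero (α := ℝ) (by
      linear_combination ((1) * l ^ 0) * h +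
        ((-1) * l ^ 0) * h')).elim
  · exact (one_ne_zero (α := ℝ) (by
      linear_combination ((0) * l ^ 0 + (0) * l ^ 1 + (-1) * l ^ 2) * h +
        ((1) * l ^ 0) * h')).elim
  · rfl
  · exact (one_ne_zero (α := ℝ) (by
      linear_combination ((-1/2) * l ^ 0 + (1/2) * l ^ 1) * h +
        ((-1/2) * l ^ 0) * h')).elim
  · exact (one_ne_zero (α := ℝ) (by
      linear_combination ((-1) * l ^ 0 + (1/2) * l ^ 1) * h +
        ((1/2) * l ^ 0 + (-1/2) * l ^ 1) * h')).elim
  · exact (one_ne_zero (α := ℝ) (by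
      linear_combination ((1/6) * l ^ 0) * h +
        ((-1/2) * l ^ 0 + (-1/6) * l ^ 1) * h')).elim
  · exact (one_ne_zero (α := ℝ) (by
      linear_combination ((-1/2) * l ^ 0) * h +
        ((-3/2) * l ^ 0 + (0) * l ^ 1 + (1/2) * l ^ 2) * h')).elim
  · exact (one_ne_zero (α := ℝ) (by
      linear_combination ((1) * l ^ 0 + (-1) * l ^ 1) * h +
        ((0) * l ^ 0 + (-2) * l ^ 1 + (1) * l ^ 2) * h')).elim
  · exact (one_ne_zero (α := ℝ) (by
      linear_combination ((-3/5) * l ^ 0 + (-1/5) * l ^ 1) * h +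
        ((-2/5) * l ^ 0 + (2/5) * l ^ 1 + (1/5) * l ^ 2) * h')).elim
  · exact (one_ne_zero (α := ℝ) (by
      linear_combination ((-1/5) * l ^ 0 + (-7/5) * l ^ 1 + (-1/5) * l ^ 2 + (3/5) * l ^ 3) * h +
        ((6/5) * l ^ 0 + (4/5) * l ^ 1 + (-3/5) * l ^ 2) * h')).elim
  · exact (one_ne_zero (α := ℝ) (by
      linear_combination ((-1/2) * l ^ 0) * h +
        ((-1/2) * l ^ 0 + (1/2) * l ^ 1) * h')).elim
  · rfl
  · exact (one_ne_zero (α := ℝ) (by
      linear_combination ((-1) * l ^ 0 + (1/2) * l ^ 1) * h +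
        ((-1/2) * l ^ 0 + (1) * l ^ 1 + (-1/2) * l ^ 2) * h')).elim
  · exact (one_ne_zero (α := ℝ) (by
      linear_combination ((1/10) * l ^ 0) * h +
        ((-3/10) * l ^ 0 + (-1/5) * l ^ 1 + (-1/10) * l ^ 2) * h')).elim
  · exact (one_ne_zero (α := ℝ) (by
      linear_combination ((-1/4) * l ^ 0) * h +
        ((0) * l ^ 0 + (1/4) * l ^ 1) * h')).elim
  · exact (one_ne_zero (α := ℝ) (by
      linear_combination ((-1) * l ^ 0 + (1/2) * l ^ 1) * h +
        ((3/2) * l ^ 0 + (-1/2) * l ^ 1) * h')).elim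
  · exact (one_ne_zero (α := ℝ) (by
      linear_combination ((0) * l ^ 0 + (-1/4) * l ^ 1) * h +
        ((-1/4) * l ^ 0 + (1/4) * l ^ 1) * h')).elim
  · exact (one_ne_zero (α := ℝ) (by
      linear_combination ((-2/3) * l ^ 0 + (1/3) * l ^ 1 + (1) * l ^ 2 + (-2/3) * l ^ 3) * h +
        ((-5/3) * l ^ 0 + (2/3) * l ^ 1) * h')).elim
  · exact (one_ne_zero (α := ℝ) (by
      linear_combination ((1/2) * l ^ 0 + (-1/2) * l ^ 1) * h +
        ((-1) * l ^ 0 + (1/2) * l ^ 1) * h')).elim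
  · exact (one_ne_zero (α := ℝ) (by
      linear_combination ((-1/2) * l ^ 0 + (1) * l ^ 1 + (-1/2) * l ^ 2) * h +
        ((-1) * l ^ 0 + (1/2) * l ^ 1) * h')).elim
  · rfl
  · exact (one_ne_zero (α := ℝ) (by
      linear_combination ((1/2) * l ^ 0) * h +
        ((-1) * l ^ 0 + (-1/2) * l ^ 1) * h')).elim
  · exact (one_ne_zero (α := ℝ) (by
      linear_combination ((-1/2) * l ^ 0) * h +
        ((1/2) * l ^ 0) * h')).elim
  · exact (one_ne_zero (α := ℝ) (by
      linear_combination ((-3/7) * l ^ 0 + (-1/7) * l ^ 1) * h +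
        ((1/7) * l ^ 0) * h')).elim
  · exact (one_ne_zero (α := ℝ) (by
      linear_combination ((-3/5) * l ^ 0 + (-1/5) * l ^ 1) * h +
        ((1/5) * l ^ 0) * h')).elim
  · exact (one_ne_zero (α := ℝ) (by
      linear_combination ((-18/55) * l ^ 0 + (-6/55) * l ^ 1 + (-3/55) * l ^ 2 + (-1/55) * l ^ 3) * h +
        ((1/55) * l ^ 0) * h')).elim
  · exact (one_ne_zero (α := ℝ) (by
      linear_combination ((-1/2) * l ^ 0 + (-1/6) * l ^ 1) * h +
        ((1/6) * l ^ 0) * h')).elim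
  · exact (one_ne_zero (α := ℝ) (by
      linear_combination ((-3/10) * l ^ 0 + (-1/5) * l ^ 1 + (-1/10) * l ^ 2) * h +
        ((1/10) * l ^ 0) * h')).elim
  · exact (one_ne_zero (α := ℝ) (by
      linear_combination ((-1) * l ^ 0 + (-1/2) * l ^ 1) * h +
        ((1/2) * l ^ 0) * h')).elim
  · rfl

lemma five : ∀ a b c d e f g h i j : Bool, cls a b c e f h = cls a b d e g i →
    cls a b c e f h = cls a c d f g j → cls a b c e f h = cls b c d h i j →
    cls a b c e f h = cls e f g h i j → cls a b c e f h = 0 ∨ cls a b c e f h = 1 ∨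
      cls a b c e f h = 8 ∨ (cls a b c e f h = 4 ∧ z a + z b + z c + z d = 2) := by
  decide +kernel

lemma cls8 : ∀ a b c d e f : Bool, cls a b c d e f = 8 → a = true := by decide

lemma cls1 : ∀ c d e f : Bool, cls true true c d e f ≠ 1 := by decide

lemma more {n : ℕ} (a b c : Fin n) (h : 3 < n) : ∃ v, a ≠ v ∧ b ≠ v ∧ c ≠ v := by
  obtain ⟨v, -, hv⟩ := exists_mem_notMem_of_card_lt_card (s := {a, b, c}) (t := univ)
    (card_le_three.trans_lt (by simpa using h))
  simp only [mem_insert, mem_singleton, not_or] at hv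
  exact ⟨v, Ne.symm hv.1, Ne.symm hv.2.1, Ne.symm hv.2.2⟩

lemma deg_one {n : ℕ} {G : SimpleGraph (Fin n)} (hc : G.Connected) (hn : 3 < n)
    (h : ∀ u v w, G.Adj u v → G.Adj u w → v = w) : False := by
  obtain ⟨u⟩ := hc.nonempty
  by_cases hu : ∃ v, G.Adj u v
  · obtain ⟨v, hv⟩ := hu
    obtain ⟨w, a, b, -⟩ := more u v v hn
    rcases closed hc (fun x => u = x ∨ v = x) u (Or.inl rfl) (by
      rintro x y (rfl | rfl) hxy
      exacts [Or.inr (h _ _ _ hv hxy), Or.inl (h _ _ _ hv.symm hxy)]) w with e | e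
    exacts [a e, b e]
  · obtain ⟨w, a, -⟩ := more u u u hn
    exact a (closed hc (fun x => u = x) u rfl (by rintro x y rfl hxy; exact (hu ⟨y, hxy⟩).elim) w)

lemma case_big {n : ℕ} {G : SimpleGraph (Fin n)} (hc : G.Connected) {l : ℝ} (h0 : l ≠ 0)
    (h1 : l + 1 ≠ 0) (h : (Mx G l).rank < 4) (hn : 5 ≤ n) : ¬ IsMain G l := by
  classical
  have C : ∀ {p q s t : Fin n}, p ≠ q → p ≠ s → p ≠ t → q ≠ s → q ≠ t → s ≠ t →
      r (cls (bit G p q) (bit G p s) (bit G p t) (bit G q s) (bit G q t) (bit G s t)) l = 0 :=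
    fun a b c d e f => r_cls h0 h1 _ _ _ _ _ _ (four h a b c d e f)
  have F : ∀ {p q s t u : Fin n}, p ≠ q → p ≠ s → p ≠ t → p ≠ u → q ≠ s → q ≠ t → q ≠ u →
      s ≠ t → s ≠ u → t ≠ u → r 1 l = 0 ∨ r 8 l = 0 ∨ (r 4 l = 0 ∧
        z (bit G p q) + z (bit G p s) + z (bit G p t) + z (bit G p u) = 2) := by
    intro p q s t u a b c d e f g h i j
    have k := C a b c e f h
    rcases five _ _ _ _ _ _ _ _ _ _ (r_uniq k (C a b d e g i)) (r_uniq k (C a c d f g j))
      (r_uniq k (C b c d h i j)) (r_uniq k (C e f g h i j)) with x | x | x | ⟨x, y⟩ <;>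
      rw [x] at k
    · exact absurd (r_rng k).1 (by norm_num)
    exacts [Or.inl k, Or.inr (Or.inl k), Or.inr (Or.inr ⟨k, y⟩)]
  by_cases c1 : r 1 l = 0
  · refine (deg_one hc (by omega) fun u v w a b => ?_).elim
    by_contra hvw
    obtain ⟨t, x, y, s⟩ := more u v w (by omega)
    have := r_uniq (C a.ne b.ne x hvw y s) c1
    rw [bit_t a, bit_t b] at this
    exact cls1 _ _ _ _ this
  by_cases c8 : r 8 l = 0
  · have all : ∀ u v, u ≠ v → G.Adj u v := by
      intro u v huv
      obtain ⟨w, a, b, -⟩ := more u v v (by omega)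
      obtain ⟨t, x, y, s⟩ := more u v w (by omega)
      simpa [bit] using cls8 _ _ _ _ _ _ (r_uniq (C huv a x b y s) c8)
    refine regular (d := n - 1) (fun v => ?_) ?_
    · have : ∑ w, ((if G.Adj v w then (1 : ℝ) else 0) + if v = w then 1 else 0) = ∑ w : Fin n, 1 :=
        sum_congr rfl fun w _ => by
          by_cases e : v = w
          · simp [e]
          · simp [e, all v w e]
      rw [sum_add_distrib, sum_ite_eq, if_pos (mem_univ _)] at this
      simp only [sum_const, card_univ, Fintype.card_fin, nsmul_eq_mul, mul_one] at this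
      convert eq_sub_of_add_eq this
    · simp only [r] at c8
      have : (5 : ℝ) ≤ n := by exact_mod_cast hn
      intro e; linarith
  have F2 : ∀ {p q s t u : Fin n}, p ≠ q → p ≠ s → p ≠ t → p ≠ u → q ≠ s → q ≠ t → q ≠ u →
      s ≠ t → s ≠ u → t ≠ u → r 4 l = 0 ∧
        z (bit G p q) + z (bit G p s) + z (bit G p t) + z (bit G p u) = 2 :=
    fun a b c d e f g h i j => ((F a b c d e f g h i j).resolve_left c1).resolve_left c8
  rcases hn.lt_or_eq with hn | rfl
  · exfalso
    have g : ∀ i j k m : Fin 6, (0 < i ∧ i < j ∧ j < k ∧ k < m) →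
        z (bit G (Fin.castLE hn 0) (Fin.castLE hn i)) + z (bit G (Fin.castLE hn 0) (Fin.castLE hn j))
        + z (bit G (Fin.castLE hn 0) (Fin.castLE hn k)) +
        z (bit G (Fin.castLE hn 0) (Fin.castLE hn m)) = 2 := by
      intro i j k m ⟨a, b, c, d⟩
      refine (F2 ?_ ?_ ?_ ?_ ?_ ?_ ?_ ?_ ?_ ?_).2 <;>
        (rw [Ne, (Fin.castLE_injective hn).eq_iff, Fin.ext_iff]
         simp only [Fin.lt_def, Fin.val_zero] at *
         omega)
    have := g 1 2 3 4 (by decide)
    have := g 1 2 3 5 (by decide)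
    have := g 1 2 4 5 (by decide)
    have := g 1 3 4 5 (by decide)
    have := g 2 3 4 5 (by decide)
    omega
  · have c4 := (F2 (p := 0) (q := 1) (s := 2) (t := 3) (u := 4) (by decide) (by decide)
      (by decide) (by decide) (by decide) (by decide) (by decide) (by decide) (by decide)
      (by decide)).1
    refine regular (d := 2) (fun v => ?_) (by rintro rfl; norm_num [r] at c4)
    have g := (F2 (p := v) (q := v + 1) (s := v + 2) (t := v + 3) (u := v + 4) (by omega)
      (by omega) (by omega) (by omega) (by omega) (by omega) (by omega) (by omega) (by omega)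
      (by omega)).2
    simp only [z_ite G]
    rw [← Equiv.sum_comp (Equiv.addLeft v), Fin.sum_univ_five]
    simp only [Equiv.coe_addLeft, add_zero]
    rw [bit_f (G.loopless.1 v), show z false = 0 from rfl]
    have g' := congrArg (fun x : ℤ => (x : ℝ)) g
    push_cast at g' ⊢
    linarith

lemma small4 : ∀ a b c d e f : Bool, z a + z b + z d = z a + z c + z e →
    z a + z b + z d = z b + z c + z f → z a + z b + z d = z d + z e + z f →
    z a + z b + z d = 0 ∨ (z a + z b + z d = 1 ∧ ¬ (a = true ∧ b = true)) ∨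
      (2 ≤ z a + z b + z d ∧ z a + z b + z c = z a + z b + z d) := by decide

lemma tri {l : ℝ} (h0 : l ≠ 0) (h1 : l + 1 ≠ 0) (a b c : Bool)
    (h : l ^ 3 - (z a + z b + z c) * l - 2 * (z a * z b * z c) = 0) :
    (z a + z b + z c = 1 ∧ l = 1) ∨ (z a + z b + z c = 2 ∧ l ^ 2 = 2) ∨
      (z a + z b + z c = 3 ∧ l = 2) := by
  have k : ∀ (i j : ℕ) (s : ℝ), l ^ i * (l + 1) ^ j * s = 0 → s = 0 := fun i j s hs =>
    (mul_eq_zero.1 hs).resolve_left (mul_ne_zero (pow_ne_zero _ h0) (pow_ne_zero _ h1))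
  have k1 : l ^ 3 - l = 0 → l = 1 := fun h => sub_eq_zero.1 (k 1 1 _ (by linear_combination h))
  have k2 : l ^ 3 - 2 * l = 0 → l ^ 2 = 2 := fun h =>
    sub_eq_zero.1 (k 1 0 _ (by linear_combination h))
  cases a <;> cases b <;> cases c <;> simp only [z] at h ⊢ <;> norm_num at h ⊢
  · exact h0 h
  any_goals exact k1 (by linarith)
  any_goals exact k2 (by linarith)
  exact sub_eq_zero.1 (k 0 2 _ (by linear_combination h))

open Classical in
lemma complete {n : ℕ} {G : SimpleGraph (Fin n)} (all : ∀ u v, u ≠ v → G.Adj u v) (v : Fin n) :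
    ∑ w, (if G.Adj v w then (1 : ℝ) else 0) = n - 1 := by
  have : ∑ w, ((if G.Adj v w then (1 : ℝ) else 0) + if v = w then 1 else 0) = ∑ w : Fin n, 1 :=
    sum_congr rfl fun w _ => by
      by_cases e : v = w
      · simp [e]
      · simp [e, all v w e]
  rw [sum_add_distrib, sum_ite_eq, if_pos (mem_univ _)] at this
  simp only [sum_const, card_univ, Fintype.card_fin, nsmul_eq_mul, mul_one] at this
  exact eq_sub_of_add_eq this

lemma case_four {G : SimpleGraph (Fin 4)} (hc : G.Connected) {l : ℝ} (h0 : l ≠ 0)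
    (h1 : l + 1 ≠ 0) (h : (Mx G l).rank < 3) : ¬ IsMain G l := by
  classical
  obtain ⟨e, he, e0, hl⟩ : ∃ e : ℤ, (∀ p q s : Fin 4, p ≠ q → p ≠ s → q ≠ s →
      z (bit G p q) + z (bit G p s) + z (bit G q s) = e) ∧ e ≠ 0 ∧ (2 ≤ e → l ≠ e) := by
    have T := fun p q s a b c => tri h0 h1 _ _ _ (three h (p := p) (q := q) (r := s) a b c)
    rcases T 0 1 2 (by decide) (by decide) (by decide) with ⟨-, x⟩ | ⟨-, x⟩ | ⟨-, x⟩
    · refine ⟨1, fun p q s a b c => ?_, by norm_num, by norm_num⟩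
      rcases T p q s a b c with ⟨y, -⟩ | ⟨-, y⟩ | ⟨-, y⟩
      · exact y
      · rw [x] at y; norm_num at y
      · rw [x] at y; norm_num at y
    · refine ⟨2, fun p q s a b c => ?_, by norm_num, fun _ e => by rw [e] at x; norm_num at x⟩
      rcases T p q s a b c with ⟨-, y⟩ | ⟨y, -⟩ | ⟨-, y⟩
      · rw [y] at x; norm_num at x
      · exact y
      · rw [y] at x; norm_num at x
    · refine ⟨3, fun p q s a b c => ?_, by norm_num, fun _ e => by rw [e] at x; norm_num at x⟩
      rcases T p q s a b c with ⟨-, y⟩ | ⟨-, y⟩ | ⟨y, -⟩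
      · rw [x] at y; norm_num at y
      · rw [x] at y; norm_num at y
      · exact y
  have S : ∀ p q s t : Fin 4, p ≠ q → p ≠ s → p ≠ t → q ≠ s → q ≠ t → s ≠ t →
      (e = 1 ∧ ¬ (G.Adj p q ∧ G.Adj p s)) ∨
        (2 ≤ e ∧ z (bit G p q) + z (bit G p s) + z (bit G p t) = e) := by
    intro p q s t a b c d f g
    have x := he p q s a b d
    have := small4 (bit G p q) (bit G p s) (bit G p t) (bit G q s) (bit G q t) (bit G s t)
      (x.trans (he p q t a c f).symm) (x.trans (he p s t b c g).symm)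
      (x.trans (he q s t d f g).symm)
    rw [x] at this
    rcases this with y | ⟨y, w⟩ | y
    · exact absurd y e0
    · exact Or.inl ⟨y, fun k => w ⟨bit_t k.1, bit_t k.2⟩⟩
    · exact Or.inr y
  by_cases e2 : 2 ≤ e
  · refine regular (d := e) (fun v => ?_) (hl e2)
    have g := ((S v (v + 1) (v + 2) (v + 3) (by omega) (by omega) (by omega) (by omega) (by omega)
      (by omega)).resolve_left (by omega)).2
    simp only [z_ite G]
    rw [← Equiv.sum_comp (Equiv.addLeft v), Fin.sum_univ_four]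
    simp only [Equiv.coe_addLeft, add_zero]
    rw [bit_f (G.loopless.1 v), show z false = 0 from rfl]
    have g' := congrArg (fun x : ℤ => (x : ℝ)) g
    push_cast at g' ⊢
    linarith
  · refine (deg_one hc (by omega) fun u v w a b => ?_).elim
    by_contra hvw
    obtain ⟨t, x, y, s⟩ := more u v w (by omega)
    exact ((S u v w t a.ne b.ne x hvw y s).resolve_right fun k => e2 k.1).2 ⟨a, b⟩

lemma upper {n : ℕ} {G : SimpleGraph (Fin n)} (hc : G.Connected) {l : ℝ} (hm : IsMain G l) :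
    finrank ℝ (Eig G l) ≤ max 1 (n - 4) := by
  by_contra hlt
  have hr := rank_add G l
  rw [Fintype.card_fin] at hr
  have h4 : (Mx G l).rank < 4 := by omega
  by_cases h0 : l = 0
  · subst h0
    exact case_zero hc h4 (by rw [Fintype.card_fin]; omega) hm
  by_cases h1 : l + 1 = 0
  · rw [eq_neg_of_add_eq_zero_left h1] at h4 hm
    exact case_neg hc h4 hm
  by_cases h5 : 5 ≤ n
  · exact case_big hc h0 h1 h4 h5 hm
  obtain rfl | rfl | rfl : n = 2 ∨ n = 3 ∨ n = 4 := by omega
  · have := minor ![(0 : Fin 2)] (show (Mx G l).rank < 1 by omega)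
    rw [Matrix.det_fin_one, Matrix.submatrix_apply, Mx_self] at this
    exact h0 (neg_eq_zero.1 this)
  · have T := fun p q a => two (p := p) (q := q) (show (Mx G l).rank < 2 by omega) a
    have all : ∀ u v, u ≠ v → G.Adj u v := by
      intro u v a
      by_contra k
      have := T u v a
      rw [bit_f k] at this
      exact h0 (by simpa [z] using this)
    refine regular (fun v => by convert complete all v) (fun e => ?_) hm
    have := T 0 1 (by decide)
    rw [bit_t (all 0 1 (by decide)), e] at this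
    norm_num [z] at this
  · exact case_four hc h0 h1 (by omega) hm

open Classical in
lemma lowK (n : ℕ) : 1 ∈ Values (n + 1) := by
  obtain ⟨G, hG⟩ : ∃ G : SimpleGraph (Fin (n + 1)), G = ⊤ := ⟨_, rfl⟩
  have key : ∀ (S : Finset (Fin (n + 1))) (x : Fin (n + 1) → ℝ) (v : Fin (n + 1)), v ∈ S →
      ∑ w ∈ S, (if G.Adj v w then x w else 0) = ∑ w ∈ S, x w - x v := by
    intro S x v hv
    rw [eq_sub_iff_add_eq, ← sum_ite_eq_of_mem S v x hv, ← sum_add_distrib]
    exact sum_congr rfl fun w _ => by by_cases e : v = w <;> simp [e, hG]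
  have hn : (n : ℝ) + 1 ≠ 0 := by positivity
  refine ⟨G, n, {0}, hG ▸ SimpleGraph.connected_top, ⟨fun _ => 1, ?_, by simp; positivity⟩,
    ⟨finrank_eq _ _ _ (fun x hx h0 => ?_) fun v hv => ⟨fun _ => 1, ?_, ?_⟩,
      induce_bot' _ _ _ fun S hS x hx v hv => ?_⟩, ?_⟩
  · rw [mem_Eig]; intro v; rw [key _ _ v (mem_univ _)]; simp
  · rw [mem_Eig] at hx
    funext v
    have a := hx v
    have b := hx 0
    rw [key _ _ _ (mem_univ _)] at a b
    rw [h0 0 (by simp)] at b
    exact (mul_eq_zero.1 (show ((n : ℝ) + 1) * x v = 0 by linarith)).resolve_left hn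
  · rw [mem_Eig]; intro v; rw [key _ _ v (mem_univ _)]; simp
  · intro w hw
    simp only [mem_singleton] at hv hw
    simp [hv, hw]
  · have a : ∀ u ∈ S, (n + 1) * x u = ∑ w ∈ S, x w := by
      intro u hu
      have := hx u hu
      rw [key _ _ _ hu] at this
      linarith
    have b := sum_congr rfl a
    have hc : S.card = n := by
      rw [show S = univ.erase 0 by ext w; simp [hS]]; simp
    rw [← mul_sum, sum_const, hc, nsmul_eq_mul] at b
    have c := a v hv
    rw [show ∑ w ∈ S, x w = 0 by linarith] at c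
    exact (mul_eq_zero.1 c).resolve_left hn
  · rw [main_all]
    · simp
    · intro v hv S hS
      rw [mem_singleton] at hv
      obtain rfl : S = univ := by ext w; by_cases e : w = v <;> simp [e, hS, ← hv]
      refine ⟨fun _ => 1, fun v hv => ?_, by simp; positivity⟩
      rw [key _ _ v hv]; simp

/-- The path `0 - 1 - 2 - 3` with all further vertices attached to `3`. -/
def broom (n : ℕ) : SimpleGraph (Fin n) where
  Adj u v := (u.val + 1 = v.val ∧ v.val ≤ 3) ∨ (v.val + 1 = u.val ∧ u.val ≤ 3) ∨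
    (u.val = 3 ∧ 4 ≤ v.val) ∨ (v.val = 3 ∧ 4 ≤ u.val)
  symm := ⟨fun u v h => by omega⟩
  loopless := ⟨fun u h => by omega⟩

open Classical in
lemma lowB (m : ℕ) : m + 1 ∈ Values (m + 5) := by
  let G := broom (m + 5)
  let v0 : Fin (m + 5) := ⟨0, by omega⟩
  let v1 : Fin (m + 5) := ⟨1, by omega⟩
  let v2 : Fin (m + 5) := ⟨2, by omega⟩
  let v3 : Fin (m + 5) := ⟨3, by omega⟩
  let X : Finset (Fin (m + 5)) := {v0, v1, v2, v3}ᶜ
  have hX : ∀ v, v ∈ X ↔ 4 ≤ v.val := by
    intro v
    simp only [X, mem_compl, mem_insert, mem_singleton, Fin.ext_iff, v0, v1, v2, v3]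
    omega
  have one : ∀ (S : Finset (Fin (m + 5))) (x : Fin (m + 5) → ℝ) (u a : Fin (m + 5)), a ∈ S →
      (∀ w ∈ S, G.Adj u w ↔ w = a) → ∑ w ∈ S, (if G.Adj u w then x w else 0) = x a := by
    intro S x u a ha h
    rw [← sum_ite_eq_of_mem' S a x ha]
    exact sum_congr rfl fun w hw => by simp [h w hw]
  have two : ∀ (S : Finset (Fin (m + 5))) (x : Fin (m + 5) → ℝ) (u a b : Fin (m + 5)), a ∈ S →
      b ∈ S → a ≠ b → (∀ w ∈ S, G.Adj u w ↔ w = a ∨ w = b) →
        ∑ w ∈ S, (if G.Adj u w then x w else 0) = x a + x b := by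
    intro S x u a b ha hb hab h
    rw [← sum_ite_eq_of_mem' S a x ha, ← sum_ite_eq_of_mem' S b x hb, ← sum_add_distrib]
    refine sum_congr rfl fun w hw => ?_
    rw [h w hw]
    by_cases e : w = a
    · simp [e, hab]
    · simp [e]
  -- the null vectors
  let y : Fin (m + 5) → Fin (m + 5) → ℝ := fun v w =>
    (if w = v then 1 else 0) - (if w = v2 then 1 else 0) + (if w = v0 then 1 else 0)
  have hy : ∀ (S : Finset (Fin (m + 5))) (v : Fin (m + 5)), 4 ≤ v.val → v ∈ S → v0 ∈ S → v2 ∈ S →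
      (∀ u, ∑ w ∈ S, (if G.Adj u w then y v w else 0) = 0 * y v u) ∧ ∑ w ∈ S, y v w = 1 := by
    intro S v hv a b c
    constructor
    · intro u
      have : ∀ w, (if G.Adj u w then y v w else 0) =
          (if w = v then (if G.Adj u v then 1 else 0) else 0) -
          (if w = v2 then (if G.Adj u v2 then 1 else 0) else 0) +
          (if w = v0 then (if G.Adj u v0 then (1 : ℝ) else 0) else 0) := by
        intro w
        have n1 : v ≠ v2 := by simp only [Ne, Fin.ext_iff, v2]; omega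
        have n2 : v ≠ v0 := by simp only [Ne, Fin.ext_iff, v0]; omega
        have n3 : v2 ≠ v0 := by simp [v2, v0]
        by_cases e1 : w = v
        · simp [y, e1, n1, n2]
        by_cases e2 : w = v2
        · by_cases k : G.Adj u v2 <;> simp [y, e2, n1.symm, n3, k]
        by_cases e3 : w = v0
        · simp [y, e3, n2.symm, n3.symm]
        simp [y, e1, e2, e3]
      simp only [this, sum_add_distrib, sum_sub_distrib, sum_ite_eq', a, b, c, if_true]
      have p1 : G.Adj u v ↔ u.val = 3 := by simp only [G, broom]; omega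
      have p2 : G.Adj u v2 ↔ u.val = 1 ∨ u.val = 3 := by simp only [G, broom, v2]; omega
      have p3 : G.Adj u v0 ↔ u.val = 1 := by simp only [G, broom, v0]; omega
      rw [p1, p2, p3]
      split_ifs <;> first | (norm_num; done) | (exfalso; omega)
    · simp [y, sum_add_distrib, sum_sub_distrib, a, b, c]
  have bot : ∀ (S : Finset (Fin (m + 5))) (x : Fin (m + 5) → ℝ), (∀ w : Fin (m + 5), w.val ≤ 3 → w ∈ S) →
      (∀ w ∈ S, 4 ≤ w.val → x w = 0) →
      (∀ v ∈ S, ∑ w ∈ S, (if G.Adj v w then x w else 0) = 0 * x v) → ∀ v ∈ S, x v = 0 := by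
    intro S x hS h4 hx
    have m0 := hS v0 (by simp [v0])
    have m1 := hS v1 (by simp [v1])
    have m2 := hS v2 (by simp [v2])
    have m3 := hS v3 (by simp [v3])
    have a := hx v0 m0
    have b := hx v1 m1
    have c := hx v2 m2
    have d := hx v3 m3
    rw [one S x v0 v1 m1 (fun w _ => by simp only [G, broom, v0, v1, Fin.ext_iff]; omega)] at a
    rw [two S x v1 v0 v2 m0 m2 (by simp [v0, v2])
      (fun w _ => by simp only [G, broom, v0, v1, v2, Fin.ext_iff]; omega)] at b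
    rw [two S x v2 v1 v3 m1 m3 (by simp [v1, v3])
      (fun w _ => by simp only [G, broom, v1, v2, v3, Fin.ext_iff]; omega)] at c
    have : ∑ w ∈ S, (if G.Adj v3 w then x w else 0) = x v2 := by
      rw [← sum_ite_eq_of_mem' S v2 x m2]
      refine sum_congr rfl fun w hw => ?_
      by_cases k : 4 ≤ w.val
      · simp [h4 w hw k]
      · have : G.Adj v3 w ↔ w = v2 := by simp only [G, broom, v2, v3, Fin.ext_iff]; omega
        simp [this]
    rw [this] at d
    intro v hv
    by_cases k : 4 ≤ v.val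
    · exact h4 v hv k
    obtain rfl | rfl | rfl | rfl : v = v0 ∨ v = v1 ∨ v = v2 ∨ v = v3 := by
      simp only [v0, v1, v2, v3, Fin.ext_iff]; omega
    all_goals linarith
  refine ⟨G, 0, X, ?_, ⟨y ⟨4, by omega⟩, ?_, ?_⟩, ⟨finrank_eq _ _ _ (fun x hx h0 => ?_)
    fun v hv => ⟨y v, ?_, fun w hw => ?_⟩, induce_bot' _ _ _ fun S hS x hx => ?_⟩, ?_⟩
  · have r3 : ∀ v, G.Reachable v3 v := by
      have a : G.Adj v3 v2 := by simp [G, broom, v3, v2]
      have b : G.Adj v2 v1 := by simp [G, broom, v1, v2]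
      have c : G.Adj v1 v0 := by simp [G, broom, v1, v0]
      intro v
      by_cases k : 4 ≤ v.val
      · exact SimpleGraph.Adj.reachable (by simp [G, broom, v3, k])
      obtain rfl | rfl | rfl | rfl : v = v0 ∨ v = v1 ∨ v = v2 ∨ v = v3 := by
        simp only [v0, v1, v2, v3, Fin.ext_iff]; omega
      exacts [(a.reachable.trans b.reachable).trans c.reachable, a.reachable.trans b.reachable,
        a.reachable, .refl _]
    exact ⟨fun u v => (r3 u).symm.trans (r3 v)⟩
  · rw [mem_Eig]; exact (hy univ _ (by simp) (mem_univ _) (mem_univ _) (mem_univ _)).1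
  · rw [(hy univ _ (by simp) (mem_univ _) (mem_univ _) (mem_univ _)).2]; exact one_ne_zero
  · rw [mem_Eig] at hx
    funext v
    exact bot univ x (fun _ _ => mem_univ _) (fun w _ k => h0 w ((hX w).2 k)) (fun v _ => hx v) v
      (mem_univ _)
  · rw [mem_Eig]; exact (hy univ _ ((hX v).1 hv) (mem_univ _) (mem_univ _) (mem_univ _)).1
  · have := (hX w).1 hw
    have n1 : w ≠ v2 := by simp only [Ne, Fin.ext_iff, v2]; omega
    have n2 : w ≠ v0 := by simp only [Ne, Fin.ext_iff, v0]; omega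
    simp [y, n1, n2]
  · refine bot _ x (fun w k => ?_) (fun w k k' => ?_) hx
    · rw [hS, hX]; omega
    · rw [hS, hX] at k; omega
  · rw [main_all]
    · rw [card_compl, card_insert_of_notMem (by simp [v0, v1, v2, v3]),
        card_insert_of_notMem (by simp [v1, v2, v3]), card_pair (by simp [v2, v3])]
      simp
    · intro v hv S hS
      have := hy S v ((hX v).1 hv) (by simp [hS]) (by simp [X, hS]) (by simp [X, hS])
      refine ⟨y v, fun u _ => this.1 u, ?_⟩
      rw [this.2]; exact one_ne_zero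

theorem result : ∀ n, 1 ≤ n → IsGreatest (Values n) (max 1 (n - 4)) := by
  intro n hn
  constructor
  · by_cases h : 5 ≤ n
    · obtain ⟨m, rfl⟩ := Nat.exists_eq_add_of_le' h
      rw [show max 1 (m + 5 - 4) = m + 1 by omega]
      exact lowB m
    · obtain ⟨m, rfl⟩ := Nat.exists_eq_add_of_le' hn
      rw [show max 1 (m + 1 - 4) = 1 by omega]
      exact lowK m
  · rintro m ⟨G, l, X, hc, hm, hX, rfl⟩
    refine le_trans ?_ (hX.1.trans_le (upper hc hm))
    unfold mainVertices
    convert card_filter_le _ _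

end Pool.Agent.Results.MP_bb681f_co.Max
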